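import Pool.Agent.KGn.Dim
import Pool.Agent.CGQ.CEE
import Pool.Agent.CGQ.TDefs
import Pool.Agent.CG2.CellVan

/-!
# Vanishing above the virtual cohomological dimension for `GL_n`
-/

noncomputable section

set_option linter.unusedSectionVars false

namespace Pool.Agent.KGn

open NumberField IsDedekindDomain Pool.Agent.CGQ Pool.Agent.CG3
open Pool.Agent.CG2 (Pl Fv Ov RPl PolySys CellSys)

variable {F : Type} [Field F] [NumberField F] {n : ℕ}

/-- Vanishing for the subgroups of the principal congruence subgroup of level `3`. -/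
theorem van_small (hn : 0 < n) {K : Subgroup (sysG F n).A} (hK : K ≤ KN F n 3) (O : Type)
    [CommRing O] (W : Type) [AddCommGroup W] [Module O W] (τ : Representation O K W) (i : ℕ)
    (hi : dimV F n < n + i) : Subsingleton (groupCohomology (coeff K τ) i) := by
  obtain ⟨C, hC⟩ := exists_goodM F n 3 (by omega)
  have h0 := dimV_pos F hn
  rw [← forms_rep]
  refine ((famM hn 3 le_rfl C hC).cs hK).vanish (forms_coef τ)
    ((famM hn 3 le_rfl C hC).cs_min hK) i ?_
  change dimV F n - 1 + 1 < n + i
  omega

/-- A crude bound for all torsion free subgroups. -/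
theorem van_crude (hn : 0 < n) (K : Subgroup (sysG F n).A) (hK : OC K) (hTF : TorsionFree K) :
    ∃ N₀ : ℕ, ∀ (O : Type) [CommRing O] (W : Type) [AddCommGroup W] [Module O W]
      (τ : Representation O K W) (i : ℕ), N₀ < i →
        Subsingleton (groupCohomology (coeff K τ) i) := by
  obtain ⟨C, hC⟩ := exists_goodM F n 3 (by omega)
  obtain ⟨E, i1, i2, ⟨Y⟩⟩ := (famM hn 3 le_rfl C hC).exists_prodCell (oc_KN 3 (by omega)) hK hTF
  refine ⟨Y.n0 + 1, fun O _ W _ _ τ i hi => ?_⟩
  rw [← forms_rep]
  exact Y.vanish (forms_coef τ) (c0 := 0) (fun _ _ _ => Nat.zero_le _) i (by omega)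

/-- **The upper bound.** The cohomology of the torsion free open compact subgroups of `GL_n` over `F`
vanishes above the degree `dimV - n`. -/
theorem van_upper (hn : 0 < n) (K : Subgroup (sysG F n).A) (hK : OC K) (hTF : TorsionFree K)
    (O : Type) [CommRing O] (W : Type) [AddCommGroup W] [Module O W] (τ : Representation O K W)
    (i : ℕ) (hi : dimV F n < n + i) : Subsingleton (groupCohomology (coeff K τ) i) := by
  obtain ⟨N₀, hN⟩ := van_crude hn K hK hTF
  have h0 := dimV_pos F hn
  refine upper_all hK (oc_KN (F := F) (n := n) 3 (by omega)) (dimV F n - n) N₀ hN ?_ O W τ i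
    (by omega)
  intro K' _ hle O _ W _ _ τ i hi
  exact van_small hn hle O W τ i (by omega)

end Pool.Agent.KGn
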