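import Pool.Agent.CGN.Loc
import Pool.Agent.CGN.KPY
import Pool.Agent.CGQ.Sys
import Pool.Agent.CG2.KoeCls

/-!
# Lattices of matrices and the real algebra attached to `GL_n` over a number field
-/

noncomputable section

set_option linter.unusedSectionVars false

namespace Pool.Agent.KGn

open NumberField IsDedekindDomain Matrix
open Pool.Agent.CG2 (Pl Fv Ov RPl)
open Pool.Agent.CGN (GQ GZ paMat paR paC paProd paPi)
open Pool.Agent.CGQ (Sys PA diag)

/-! ### The adelic system -/

section sys

variable (F : Type) [Field F] [NumberField F] (n : ℕ)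

variable {F n} in
/-- The determinant of an element of `GL_n(F)` at a real place. -/
def rdet (w : RPl F) (γ : GL (Fin n) F) : ℝ :=
  InfinitePlace.embedding_of_isReal w.2 (γ : Matrix (Fin n) (Fin n) F).det

variable {F n} in
theorem rdet_ne (w : RPl F) (γ : GL (Fin n) F) : rdet w γ ≠ 0 := by
  have h := γ.isUnit.map (Matrix.detMonoidHom (R := F) (n := Fin n))
  have h2 : (γ : Matrix (Fin n) (Fin n) F).det ≠ 0 := h.ne_zero
  exact (map_ne_zero (InfinitePlace.embedding_of_isReal w.2)).2 h2

variable {F n} in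
theorem rdet_mul (w : RPl F) (a b : GL (Fin n) F) : rdet w (a * b) = rdet w a * rdet w b := by
  rw [rdet, Units.val_mul, Matrix.det_mul, map_mul]
  rfl

open Classical in
/-- The signs of the determinant at the real places. -/
def sgnG : GL (Fin n) F →* (RPl F → ℤˣ) where
  toFun γ w := if 0 < rdet w γ then 1 else -1
  map_one' := by
    funext w
    simp [rdet]
  map_mul' a b := by
    funext w
    have ha := rdet_ne w a
    have hb := rdet_ne w b
    simp only [rdet_mul, Pi.mul_apply]
    rcases lt_or_gt_of_ne ha with ha | ha <;> rcases lt_or_gt_of_ne hb with hb | hb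
    · rw [if_pos (mul_pos_of_neg_of_neg ha hb), if_neg ha.not_gt, if_neg hb.not_gt]; rfl
    · rw [if_neg (mul_neg_of_neg_of_pos ha hb).not_gt, if_neg ha.not_gt, if_pos hb]; rfl
    · rw [if_neg (mul_neg_of_pos_of_neg ha hb).not_gt, if_pos ha, if_neg hb.not_gt]; rfl
    · rw [if_pos (mul_pos ha hb), if_pos ha, if_pos hb]; rfl

/-- The entries of a matrix over `F` are integral at almost all places. -/
theorem fin_int (x : Matrix (Fin n) (Fin n) F) :
    {v : Pl F | ¬ ∀ i j, Valued.v ((x i j : F) : Fv v) ≤ 1}.Finite := by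
  have h : {v : Pl F | ¬ ∀ i j, Valued.v ((x i j : F) : Fv v) ≤ 1} ⊆
      ⋃ i, ⋃ j, {v : Pl F | ¬ Valued.v ((x i j : F) : Fv v) ≤ 1} := by
    intro v hv
    by_contra hc
    simp only [Set.mem_iUnion, Set.mem_ofPred_eq, not_exists, not_not] at hc
    exact hv fun i j => hc i j
  exact (Set.finite_iUnion fun i => Set.finite_iUnion fun j => CG2.finite_val_gt _).subset h

theorem fin_loc (γ : GL (Fin n) F) :
    {v : Pl F | GeneralLinearGroup.map (algebraMap F (Fv v)) γ ∉ GZ n v}.Finite := by
  refine ((fin_int F n γ.1).union (fin_int F n (γ⁻¹ : GL (Fin n) F).1)).subset ?_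
  intro v hv
  by_contra hc
  simp only [Set.mem_union, Set.mem_ofPred_eq, not_or, not_not] at hc
  refine hv ((CGN.mem_GZ_iff v _).2 ⟨hc.1, ?_⟩)
  rw [← map_inv]
  exact hc.2

/-- The adelic system of `GL_n` over `F`. -/
def sysG : Sys F where
  G := GL (Fin n) F
  grpG := inferInstance
  L := fun v => GQ n v
  grpL := fun _ => inferInstance
  topL := fun _ => inferInstance
  tgL := fun _ => inferInstance
  B := fun v => GZ n v
  isOpen_B := fun v => CGN.isOpen_GZ v
  isCompact_B := fun v => CGN.isCompact_GZ v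
  loc := fun v => GeneralLinearGroup.map (algebraMap F (Fv v))
  fin := fin_loc F n
  Sg := RPl F → ℤˣ
  grpS := inferInstance
  finS := inferInstance
  sgn := sgnG F n

end sys

variable {F : Type} [Field F] [NumberField F] {n : ℕ}

/-! ### Integral matrices -/

/-- The matrices over `F`. -/
abbrev ME (F : Type) (n : ℕ) : Type := Matrix (Fin n) (Fin n) F

/-- The matrices over `F_v`. -/
abbrev MV (n : ℕ) (v : Pl F) : Type := Matrix (Fin n) (Fin n) (Fv v)

instance decME (F : Type) (n : ℕ) : DecidableEq (ME F n) := Classical.decEq _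

/-- The entry of a matrix with a given index. -/
def co {R : Type} {n : ℕ} (x : Matrix (Fin n) (Fin n) R) (i : Fin n × Fin n) : R := x i.1 i.2

theorem co_ext {R : Type} {x y : Matrix (Fin n) (Fin n) R} (h : ∀ i, co x i = co y i) : x = y :=
  Matrix.ext fun i j => h (i, j)

theorem co_add {R : Type} [CommRing R] (x y : Matrix (Fin n) (Fin n) R) (i : Fin n × Fin n) :
    co (x + y) i = co x i + co y i := rfl

theorem co_neg {R : Type} [CommRing R] (x : Matrix (Fin n) (Fin n) R) (i : Fin n × Fin n) :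
    co (-x) i = - co x i := rfl

theorem co_sub {R : Type} [CommRing R] (x y : Matrix (Fin n) (Fin n) R) (i : Fin n × Fin n) :
    co (x - y) i = co x i - co y i := rfl

theorem co_zero {R : Type} [CommRing R] (i : Fin n × Fin n) :
    co (0 : Matrix (Fin n) (Fin n) R) i = 0 := rfl

theorem co_smul {R : Type} [CommRing R] (c : R) (x : Matrix (Fin n) (Fin n) R)
    (i : Fin n × Fin n) : co (c • x) i = c * co x i := rfl

theorem co_mul {R : Type} [CommRing R] (x y : Matrix (Fin n) (Fin n) R) (i : Fin n × Fin n) :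
    co (x * y) i = ∑ k, co x (i.1, k) * co y (k, i.2) := Matrix.mul_apply

theorem co_nat {R : Type} [CommRing R] (N : ℕ) (x : Matrix (Fin n) (Fin n) R)
    (i : Fin n × Fin n) : co (((N : ℕ) : Matrix (Fin n) (Fin n) R) * x) i = ((N : ℕ) : R) * co x i := by
  have h1 : ((N : ℕ) : Matrix (Fin n) (Fin n) R) * x = ((N : ℕ) : R) • x := by
    rw [← nsmul_eq_mul, Nat.cast_smul_eq_nsmul]
  rw [h1]
  rfl

/-- The image of a matrix over `F` in the matrices over `F_v`. -/
def lm (v : Pl F) : ME F n →+* MV n v := (algebraMap F (Fv v)).mapMatrix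

theorem co_lm (v : Pl F) (x : ME F n) (i : Fin n × Fin n) : co (lm v x) i = ((co x i : F) : Fv v) :=
  rfl

/-- An element of the group of the rational points as a unit. -/
def uG (γ : (sysG F n).G) : GL (Fin n) F := γ

theorem uG_mul (a b : (sysG F n).G) : (uG (a * b)).1 = (uG a).1 * (uG b).1 := rfl

theorem uG_one : (uG (1 : (sysG F n).G)).1 = 1 := rfl

/-- The action of `GL_n(F)` on the matrices over `F` by left multiplication. -/
instance actME : MulAction (sysG F n).G (ME F n) where
  smul γ x := (uG γ).1 * x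
  one_smul x := by
    change (uG (1 : (sysG F n).G)).1 * x = x
    rw [uG_one, one_mul]
  mul_smul a b x := by
    change (uG (a * b)).1 * x = (uG a).1 * ((uG b).1 * x)
    rw [uG_mul, mul_assoc]

theorem smul_ME (γ : (sysG F n).G) (x : ME F n) : γ • x = (uG γ).1 * x := rfl

/-- The matrix with given entries. -/
def mkM (r : Fin n × Fin n → F) : ME F n := Matrix.of fun i j => r (i, j)

theorem co_mkM (r : Fin n × Fin n → F) (i : Fin n × Fin n) : co (mkM r) i = r i := rfl

/-- The component at `v`. -/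
def gv (g : (sysG F n).A) (v : Pl F) : GQ n v := g.1 v

theorem gv_mul (g k : (sysG F n).A) (v : Pl F) : gv (g * k) v = gv g v * gv k v := rfl

theorem gv_one (v : Pl F) : gv (1 : (sysG F n).A) v = 1 := rfl

theorem gv_inv (g : (sysG F n).A) (v : Pl F) : gv g⁻¹ v = (gv g v)⁻¹ := rfl

theorem gv_diag (γ : (sysG F n).G) (v : Pl F) : (gv (diag γ) v).1 = lm v (uG γ).1 := rfl

/-- The entries of `x` are in `O_v`. -/
def IntM (v : Pl F) (x : MV n v) : Prop := ∀ i : Fin n × Fin n, Valued.v (co x i) ≤ 1

/-- The entries of `x` are divisible by `N`. -/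
def DivM (N : ℕ) (v : Pl F) (x : MV n v) : Prop :=
  ∀ i : Fin n × Fin n, Valued.v (co x i) ≤ Valued.v ((N : ℕ) : Fv v)

theorem intM_iff (v : Pl F) (x : MV n v) : IntM v x ↔ ∀ i j, Valued.v (x i j) ≤ 1 :=
  ⟨fun h i j => h (i, j), fun h i => h i.1 i.2⟩

theorem intM_iff_co (v : Pl F) (x : MV n v) : IntM v x ↔ ∀ i, Valued.v (co x i) ≤ 1 := Iff.rfl

theorem mem_GZ (v : Pl F) (g : GQ n v) : g ∈ GZ n v ↔ IntM v g.1 ∧ IntM v (g⁻¹ : GQ n v).1 := by
  rw [intM_iff, intM_iff]
  exact CGN.mem_GZ_iff v g

theorem intM_add {v : Pl F} {x y : MV n v} (hx : IntM v x) (hy : IntM v y) : IntM v (x + y) :=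
  fun i => (Valuation.map_add _ _ _).trans (max_le (hx i) (hy i))

theorem intM_neg {v : Pl F} {x : MV n v} (hx : IntM v x) : IntM v (-x) := fun i => by
  rw [co_neg, Valuation.map_neg]
  exact hx i

theorem intM_zero {v : Pl F} : IntM v (0 : MV n v) := fun i => by
  rw [co_zero, map_zero]
  exact zero_le

theorem intM_one {v : Pl F} : IntM v (1 : MV n v) := ((mem_GZ v 1).1 (GZ n v).one_mem).1

theorem intM_mul {v : Pl F} {x y : MV n v} (hx : IntM v x) (hy : IntM v y) : IntM v (x * y) :=
  fun i => by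
    rw [co_mul]
    refine Valuation.map_sum_le _ fun k _ => ?_
    rw [map_mul]
    exact mul_le_one' (hx (i.1, k)) (hy (k, i.2))

theorem divM_add {N : ℕ} {v : Pl F} {x y : MV n v} (hx : DivM N v x) (hy : DivM N v y) :
    DivM N v (x + y) :=
  fun i => (Valuation.map_add _ _ _).trans (max_le (hx i) (hy i))

theorem divM_neg {N : ℕ} {v : Pl F} {x : MV n v} (hx : DivM N v x) : DivM N v (-x) :=
  fun i => by
    rw [co_neg, Valuation.map_neg]
    exact hx i

theorem divM_zero {N : ℕ} {v : Pl F} : DivM N v (0 : MV n v) := fun i => by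
  rw [co_zero, map_zero]
  exact zero_le

theorem divM_mul_left {N : ℕ} {v : Pl F} {x y : MV n v} (hx : IntM v x) (hy : DivM N v y) :
    DivM N v (x * y) := fun i => by
  rw [co_mul]
  refine Valuation.map_sum_le _ fun k _ => ?_
  rw [map_mul]
  calc _ ≤ 1 * Valued.v ((N : ℕ) : Fv v) := mul_le_mul' (hx (i.1, k)) (hy (k, i.2))
    _ = _ := one_mul _

theorem divM_mul_right {N : ℕ} {v : Pl F} {x y : MV n v} (hx : DivM N v x) (hy : IntM v y) :
    DivM N v (x * y) := fun i => by
  rw [co_mul]
  refine Valuation.map_sum_le _ fun k _ => ?_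
  rw [map_mul]
  calc _ ≤ Valued.v ((N : ℕ) : Fv v) * 1 := mul_le_mul' (hx (i.1, k)) (hy (k, i.2))
    _ = _ := mul_one _

/-- `x` is divisible by `N` iff `x = N y` with `y` integral. -/
theorem divM_iff {N : ℕ} {v : Pl F} (x : MV n v) :
    DivM N v x ↔ ∃ y, IntM v y ∧ x = ((N : ℕ) : MV n v) * y := by
  constructor
  · intro h
    by_cases hN : N = 0
    · subst hN
      refine ⟨0, intM_zero, ?_⟩
      have h0 : ∀ i, co x i = co 0 i := by
        intro i
        have h1 := h i
        rw [Nat.cast_zero, map_zero, le_zero_iff] at h1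
        exact (Valuation.zero_iff _).1 h1
      rw [mul_zero]
      exact co_ext h0
    · have hv := CG2.KoeLat_val_natCast_ne v hN
      have hN0 : ((N : ℕ) : Fv v) ≠ 0 := by
        intro h1
        rw [h1, map_zero] at hv
        exact hv rfl
      refine ⟨((N : ℕ) : Fv v)⁻¹ • x, ?_, ?_⟩
      · intro i
        rw [co_smul, map_mul, map_inv₀, inv_mul_le_one₀ (zero_lt_iff.2 hv)]
        exact h i
      · apply co_ext
        intro i
        rw [co_nat, co_smul, mul_inv_cancel_left₀ hN0]
  · rintro ⟨y, hy, rfl⟩ i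
    rw [co_nat, map_mul]
    calc _ ≤ Valued.v ((N : ℕ) : Fv v) * 1 := mul_le_mul' le_rfl (hy i)
      _ = _ := mul_one _

/-! ### Lattices and classes -/

/-- The component at `v` of the matrix `g⁻¹ x`. -/
def iq (g : (sysG F n).A) (x : ME F n) (v : Pl F) : MV n v :=
  ((gv g v)⁻¹ : GQ n v).1 * lm v x

theorem iq_add (g : (sysG F n).A) (x y : ME F n) (v : Pl F) :
    iq g (x + y) v = iq g x v + iq g y v := by
  rw [iq, map_add, mul_add]
  rfl

theorem iq_neg (g : (sysG F n).A) (x : ME F n) (v : Pl F) : iq g (-x) v = - iq g x v := by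
  rw [iq, map_neg, mul_neg]
  rfl

theorem iq_zero (g : (sysG F n).A) (v : Pl F) : iq g (0 : ME F n) v = 0 := by
  rw [iq, map_zero, mul_zero]

/-- The lattice of the matrices `x` over `F` with `g⁻¹ x` integral. -/
def Lat (g : (sysG F n).A) : AddSubgroup (ME F n) where
  carrier := {x | ∀ v, IntM v (iq g x v)}
  add_mem' := by
    intro a b ha hb v
    rw [iq_add]
    exact intM_add (ha v) (hb v)
  zero_mem' := by
    intro v
    rw [iq_zero]
    exact intM_zero
  neg_mem' := by
    intro a ha v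
    rw [iq_neg]
    exact intM_neg (ha v)

theorem mem_Lat {g : (sysG F n).A} {x : ME F n} : x ∈ Lat g ↔ ∀ v, IntM v (iq g x v) := Iff.rfl

/-- The finite set of the classes of matrices modulo `N`. -/
abbrev Cls (F : Type) [Field F] [NumberField F] (n N : ℕ) : Type :=
  Fin n × Fin n → (𝓞 F ⧸ Ideal.span {((N : ℕ) : 𝓞 F)})

/-- `g⁻¹ x` is congruent to `r` modulo `N`. -/
def IsCls (N : ℕ) (g : (sysG F n).A) (x : ME F n) (r : Fin n × Fin n → 𝓞 F) : Prop :=
  ∀ v i, Valued.v (co (iq g x v) i - (((r i : 𝓞 F) : F) : Fv v)) ≤ Valued.v ((N : ℕ) : Fv v)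

open Classical in
/-- The class of `g⁻¹ x` modulo `N`. -/
def cls (N : ℕ) (g : (sysG F n).A) (x : ME F n) : Cls F n N :=
  if h : ∃ r, IsCls N g x r then fun i => Ideal.Quotient.mk _ (h.choose i) else 0

/-- The principal congruence subgroup of level `N`. -/
def KN (F : Type) [Field F] [NumberField F] (n N : ℕ) : Subgroup (sysG F n).A where
  carrier := {k | ∀ v, gv k v ∈ GZ n v ∧ DivM N v ((gv k v).1 - 1)}
  mul_mem' := by
    intro a b ha hb v
    refine ⟨(GZ n v).mul_mem (ha v).1 (hb v).1, ?_⟩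
    have h : (gv (a * b) v).1 - 1 = (gv a v).1 * ((gv b v).1 - 1) + ((gv a v).1 - 1) := by
      rw [gv_mul, Units.val_mul, mul_sub, mul_one]
      abel
    rw [h]
    exact divM_add (divM_mul_left ((mem_GZ v _).1 (ha v).1).1 (hb v).2) (ha v).2
  one_mem' := by
    intro v
    refine ⟨(GZ n v).one_mem, ?_⟩
    rw [gv_one, Units.val_one, sub_self]
    exact divM_zero
  inv_mem' := by
    intro a ha v
    refine ⟨(GZ n v).inv_mem (ha v).1, ?_⟩
    have h : (gv a⁻¹ v).1 - 1 = ((gv a v)⁻¹ : GQ n v).1 * (-((gv a v).1 - 1)) := by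
      rw [gv_inv, neg_sub, mul_sub, mul_one, Units.inv_mul]
    rw [h]
    exact divM_mul_left ((mem_GZ v _).1 (ha v).1).2 (divM_neg (ha v).2)

/-! ### The real algebra -/

/-- The complex places. -/
abbrev CPl (F : Type) [Field F] [NumberField F] : Type := {w : InfinitePlace F // w.IsComplex}

instance fR (F : Type) [Field F] [NumberField F] : Fintype (RPl F) := Fintype.ofFinite _

instance fC (F : Type) [Field F] [NumberField F] : Fintype (CPl F) := Fintype.ofFinite _

/-- The embedding of a real place. -/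
def embR (w : RPl F) : F →+* ℝ := InfinitePlace.embedding_of_isReal w.2

/-- The real algebra of the matrices over `F ⊗ ℝ`. -/
abbrev AI (F : Type) [Field F] [NumberField F] (n : ℕ) : Type :=
  (RPl F → Matrix (Fin n) (Fin n) ℝ) × (CPl F → Matrix (Fin n) (Fin n) ℂ)

/-- The embedding of the matrices over `F`. -/
def theta (F : Type) [Field F] [NumberField F] (n : ℕ) : ME F n →+* AI F n :=
  RingHom.prod (RingHom.pi fun w : RPl F => (embR w).mapMatrix)
    (RingHom.pi fun w : CPl F => (w.1.embedding).mapMatrix)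

theorem theta_fst (x : ME F n) (w : RPl F) (i j : Fin n) : (theta F n x).1 w i j = embR w (x i j) :=
  rfl

theorem theta_snd (x : ME F n) (w : CPl F) (i j : Fin n) :
    (theta F n x).2 w i j = w.1.embedding (x i j) := rfl

/-- The positive involution. -/
def PM (F : Type) [Field F] [NumberField F] (n : ℕ) : PA (AI F n) :=
  paProd (paPi (paMat paR n) (RPl F)) (paPi (paMat paC n) (CPl F))

/-- The functional attached to a matrix over `F`. -/
def qm (x : ME F n) : (PM F n).V →L[ℝ] ℝ := (PM F n).q (theta F n x)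

/-- The image of the unit group. -/
def thU (F : Type) [Field F] [NumberField F] (n : ℕ) : GL (Fin n) F →* (AI F n)ˣ :=
  Units.map (theta F n : ME F n →* AI F n)

/-- The action of `GL_n(F)` on `V`. -/
def actV (γ : (sysG F n).G) : (PM F n).V ≃ₗ[ℝ] (PM F n).V := (PM F n).hA (thU F n (uG γ))

/-- The weights `C` are between `1` and `9/8` and generic. -/
def GoodM (N : ℕ) (C : Cls F n N → ℝ) : Prop :=
  (∀ κ, 1 < C κ ∧ C κ < 9 / 8) ∧
  ∀ (S : Finset (ME F n)) (f : ME F n → Cls F n N), Set.InjOn f S → ∀ h : (PM F n).V,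
    (∀ x ∈ S, qm x h = C (f x)) → LinearIndependent ℝ fun x : S => qm x.1

/-- The entries of an element of the real algebra. -/
def linM (F : Type) [Field F] [NumberField F] (n : ℕ) :
    AI F n ≃ₗ[ℝ] (Fin n × Fin n → mixedEmbedding.mixedSpace F) where
  toFun x i := (fun w => x.1 w i.1 i.2, fun w => x.2 w i.1 i.2)
  map_add' _ _ := rfl
  map_smul' _ _ := rfl
  invFun y := (fun w => Matrix.of fun i j => (y (i, j)).1 w, fun w => Matrix.of fun i j =>
    (y (i, j)).2 w)
  left_inv _ := rfl
  right_inv _ := rfl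

theorem linM_theta (x : ME F n) (i : Fin n × Fin n) :
    linM F n (theta F n x) i = mixedEmbedding F (co x i) := rfl

/-- The image of the lattice in the real algebra. -/
def LatI (g : (sysG F n).A) : AddSubgroup (AI F n) := (Lat g).map (theta F n).toAddMonoidHom

theorem mem_LatI {g : (sysG F n).A} {z : AI F n} : z ∈ LatI g ↔ ∃ x ∈ Lat g, theta F n x = z :=
  Iff.rfl

/-- The non-zero elements of the lattice. -/
def LatE (g : (sysG F n).A) : Set (ME F n) := {x | x ∈ Lat g ∧ x ≠ 0}

/-- The constants. -/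
def cM (N : ℕ) (C : Cls F n N → ℝ) (g : (sysG F n).A) (x : ME F n) : ℝ := C (cls N g x)

theorem cM_lt {N : ℕ} {C : Cls F n N → ℝ} (hC : GoodM N C) (g : (sysG F n).A) (x : ME F n) :
    1 < cM N C g x ∧ cM N C g x < 9 / 8 := hC.1 _

end Pool.Agent.KGn
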