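import Pool.Agent.KGn.Koe
import Pool.Agent.KGn.FP

/-!
# The dimension and the orientation character; the equivariant family
-/

noncomputable section

set_option linter.unusedSectionVars false

namespace Pool.Agent.KGn

open NumberField IsDedekindDomain Pool.Agent.CGQ Pool.Agent.CG3
open Pool.Agent.CG2 (Pl Fv Ov RPl PolySys)

variable {F : Type} [Field F] [NumberField F] {n : ℕ}

/-- The dimension of the space of the hermitian forms. -/
def dimV (F : Type) [Field F] [NumberField F] (n : ℕ) : ℕ :=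
  InfinitePlace.nrRealPlaces F * (n * (n + 1) / 2) + InfinitePlace.nrComplexPlaces F * n ^ 2

private theorem card_inst {α : Type} (i j : Fintype α) :
    @Fintype.card α i = @Fintype.card α j := by
  rw [Subsingleton.elim i j]

theorem card_RPl (F : Type) [Field F] [NumberField F] :
    Fintype.card (RPl F) = InfinitePlace.nrRealPlaces F :=
  card_inst _ _

theorem card_CPl (F : Type) [Field F] [NumberField F] :
    Fintype.card (CPl F) = InfinitePlace.nrComplexPlaces F :=
  card_inst _ _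

theorem finrank_symM (F : Type) [Field F] [NumberField F] (n : ℕ) :
    Module.finrank ℝ (PM F n).sym = dimV F n := by
  rw [PM, CGN.finrank_paProd, CGN.finrank_paPi, CGN.finrank_paPi, CGN.finrank_paMat,
    CGN.finrank_paMat, CGN.finrank_sym_R, CGN.finrank_sym_C, Module.finrank_self,
    Complex.finrank_real_complex, card_RPl, card_CPl, dimV]
  have h1 : n * 1 + n.choose 2 * 1 = n * (n + 1) / 2 := by
    rw [mul_one, mul_one, Nat.choose_two_right]
    rcases n with _ | m
    · rfl
    · have h2 : (m + 1) * (m + 1 + 1) = (m + 1) * (m + 1 - 1) + 2 * (m + 1) := by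
        rw [Nat.add_sub_cancel]
        ring
      rw [h2, Nat.add_mul_div_left _ _ two_pos]
      omega
  have h2 : n * 1 + n.choose 2 * 2 = n ^ 2 := by
    rw [mul_one, Nat.choose_two_right]
    have h3 : n * (n - 1) / 2 * 2 = n * (n - 1) :=
      Nat.div_mul_cancel (Nat.even_mul_pred_self n).two_dvd
    rw [h3]
    rcases n with _ | m
    · rfl
    · rw [Nat.add_sub_cancel]
      ring
  rw [h1, h2]

theorem finrank_V (F : Type) [Field F] [NumberField F] (n : ℕ) :
    Module.finrank ℝ (PM F n).V = dimV F n := by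
  rw [Module.finrank_fin_fun, finrank_symM]

/-- The orientation character. -/
def sgV (F : Type) [Field F] [NumberField F] (n : ℕ) : (RPl F → ℤˣ) →* ℤˣ where
  toFun s := ∏ w, s w ^ (n + 1)
  map_one' := by simp
  map_mul' a b := by
    rw [← Finset.prod_mul_distrib]
    exact Finset.prod_congr rfl fun w _ => mul_pow _ _ _

/-- The sign of the determinant of the action. -/
theorem act_det (hn : 0 < n) (γ : (sysG F n).G) :
    0 < LinearMap.det (actV γ : (PM F n).V →ₗ[ℝ] (PM F n).V) *
      (((sgV F n (sgnG F n (uG γ)) : ℤˣ) : ℤ) : ℝ) := by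
  have h1 : LinearMap.det (actV γ : (PM F n).V →ₗ[ℝ] (PM F n).V) = (PM F n).dt (thU F n (uG γ)) :=
    rfl
  rw [h1, PM, CGN.dt_paProd, CGN.dt_paPi, CGN.dt_paPi]
  have h2 : (((sgV F n (sgnG F n (uG γ)) : ℤˣ) : ℤ) : ℝ) =
      ∏ w, ((((sgnG F n (uG γ) w ^ (n + 1) : ℤˣ)) : ℤ) : ℝ) := by
    change (((∏ w, sgnG F n (uG γ) w ^ (n + 1) : ℤˣ) : ℤ) : ℝ) = _
    rw [Units.coe_prod, Int.cast_prod]
  rw [h2, mul_right_comm, ← Finset.prod_mul_distrib]
  refine mul_pos (Finset.prod_pos fun w _ => ?_) (Finset.prod_pos fun w _ => CGN.dt_pos_C _ _)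
  set u : (Matrix (Fin n) (Fin n) ℝ)ˣ := Units.map (Pi.evalRingHom (fun _ : RPl F =>
    Matrix (Fin n) (Fin n) ℝ) w : (RPl F → Matrix (Fin n) (Fin n) ℝ) →* Matrix (Fin n) (Fin n) ℝ)
    (Units.map (RingHom.fst (RPl F → Matrix (Fin n) (Fin n) ℝ)
      (CPl F → Matrix (Fin n) (Fin n) ℂ) : _ →* (RPl F → Matrix (Fin n) (Fin n) ℝ))
      (thU F n (uG γ))) with hu
  have h3 := CGN.dt_R n u hn
  have h4 : u.1.det = rdet w (uG γ) := by
    have h5 : u.1 = (embR w).mapMatrix (uG γ).1 := rfl
    rw [h5, ← RingHom.map_det]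
    rfl
  rw [h4] at h3
  have h5 : sgnG F n (uG γ) w = if 0 < rdet w (uG γ) then 1 else -1 := rfl
  rw [h5]
  have h6 := rdet_ne w (uG γ)
  rcases lt_or_gt_of_ne h6 with h7 | h7
  · rw [if_neg h7.not_gt]
    rcases Nat.even_or_odd (n + 1) with he | ho
    · rw [he.neg_one_pow]
      have h8 : 0 < rdet w (uG γ) ^ (n + 1) := he.pow_pos h6
      simpa using (mul_pos_iff_of_pos_right h8).1 h3
    · rw [ho.neg_one_pow]
      have h8 : rdet w (uG γ) ^ (n + 1) < 0 := ho.pow_neg h7
      have h9 : (CGN.paMat CGN.paR n).dt u < 0 := by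
        by_contra h10
        push Not at h10
        exact absurd h3 (not_lt.2 (mul_nonpos_of_nonneg_of_nonpos h10 h8.le))
      have h10 : ((((-1 : ℤˣ)) : ℤ) : ℝ) = -1 := by norm_num
      rw [h10]
      linarith
  · rw [if_pos h7, one_pow]
    have h8 : 0 < rdet w (uG γ) ^ (n + 1) := pow_pos h7 _
    simpa using (mul_pos_iff_of_pos_right h8).1 h3

/-- A basis of `V`. -/
def basV (F : Type) [Field F] [NumberField F] (n : ℕ) (hd : 0 < dimV F n) :
    Module.Basis (Fin (dimV F n - 1 + 1)) ℝ (PM F n).V :=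
  Module.finBasisOfFinrankEq ℝ (PM F n).V (by
    rw [finrank_V]
    omega)

theorem dimV_pos (F : Type) [Field F] [NumberField F] (hn : 0 < n) : n ≤ dimV F n := by
  have h1 : 0 < InfinitePlace.nrRealPlaces F + InfinitePlace.nrComplexPlaces F := by
    rw [← InfinitePlace.card_eq_nrRealPlaces_add_nrComplexPlaces]
    exact Fintype.card_pos
  have h2 : n ≤ n * (n + 1) / 2 := by
    rw [Nat.le_div_iff_mul_le two_pos]
    exact Nat.mul_le_mul_left n (by omega)
  have h3 : n ≤ n ^ 2 := by
    rw [sq]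
    exact Nat.le_mul_of_pos_left n hn
  rw [dimV]
  rcases Nat.eq_zero_or_pos (InfinitePlace.nrRealPlaces F) with h | h
  · have h4 : 0 < InfinitePlace.nrComplexPlaces F := by omega
    calc n ≤ n ^ 2 := h3
      _ ≤ InfinitePlace.nrComplexPlaces F * n ^ 2 := Nat.le_mul_of_pos_left _ h4
      _ ≤ _ := Nat.le_add_left _ _
  · calc n ≤ n * (n + 1) / 2 := h2
      _ ≤ InfinitePlace.nrRealPlaces F * (n * (n + 1) / 2) := Nat.le_mul_of_pos_left _ h
      _ ≤ _ := Nat.le_add_right _ _

/-- The equivariant family of polyhedra. -/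
def famM (hn : 0 < n) (N : ℕ) (hN : 3 ≤ N) (C : Cls F n N → ℝ) (hC : GoodM N C) :
    PFc (sysG F n) (KN F n N) (ME F n) (PM F n).V where
  P g := koeM hn N hN C hC g
  q := qm
  hq _ := rfl
  Pos := (PM F n).KPos
  hPos _ := rfl
  n0 := dimV F n - 1
  bas := basV F n (hn.trans_le (dimV_pos F hn))
  act := actV
  act_q := actV_q
  sg := sgV F n
  act_det := act_det hn
  c0 := n
  min := koe_min hn N hN C hC
  cell_smul := koe_cell_smul hn N hN C hC
  cell_mul := fun g _ hk R => koe_cell_mul hn N hN C hC g hk R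
  free := fun γ g k hk h R hR hf => koe_free hn N hN C hC γ g k hk h R hR hf

end Pool.Agent.KGn
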