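import Pool.Agent.KGn.FA

/-!
# Equivariant families of polyhedra: the system of cells
-/

noncomputable section

namespace Pool.Agent.KGn

open NumberField IsDedekindDomain Pool.Agent.CG3 Pool.Agent.CGQ
open Pool.Agent.CG2 (Pl PolySys CellSys Asc)

variable {F : Type} [Field F] [NumberField F]

namespace PFc

variable {𝒟 : Sys F} {K1 : Subgroup 𝒟.A} {E V : Type} [MulAction 𝒟.G E] [DecidableEq E]
  [NormedAddCommGroup V] [NormedSpace ℝ V] [FiniteDimensional ℝ V] (X : PFc 𝒟 K1 E V)

/-- The system of cells of a subgroup of `K1`. -/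
def cs {K : Subgroup 𝒟.A} (hK : K ≤ K1) : CellSys 𝒟.G (PtK K) E where
  X b := (X.P (outK b).2).cx
  n0 := X.n0
  base_card b := by rw [PolySys.cx_base, X.n0_eq]
  base_cell b := PolySys.cx_base_cell _
  max b R hR := by
    rw [PolySys.cx_cell] at hR
    rw [X.n0_eq]
    exact PolySys.face_card hR.1
  eqv γ b R := by
    rw [PolySys.cx_cell, PolySys.cx_cell]
    exact X.ori_eqv hK γ b R
  free γ b R hR hb hf := by
    rw [PolySys.cx_cell] at hR
    exact X.ori_free hK γ b R hR hb hf
  o b t := X.ori b t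
  o_alt b := by
    rw [PolySys.cx_cell]
    exact X.ori_alt b
  o_unit b t ht := by
    rw [PolySys.cx_cell] at ht
    exact X.ori_unit b t ht
  o_eqv γ b t := X.ori_smul hK γ b t
  o_cl b t := by
    rw [PolySys.cx_cell]
    exact X.ori_cl b t

/-- **KFG.** -/
theorem cs_min {K : Subgroup 𝒟.A} (hK : K ≤ K1) : (X.cs hK).Min X.c0 := by
  intro b R hR
  have hR' : ((X.P (outK b).2).cx).cell R := hR
  rw [PolySys.cx_cell] at hR'
  exact X.min _ R hR'

end PFc

end Pool.Agent.KGn
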