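import Pool.Agent.KGn.YF

/-!
# The Koecher polyhedron of `GL_n`
-/

noncomputable section

set_option linter.unusedSectionVars false

namespace Pool.Agent.KGn

open NumberField IsDedekindDomain Pool.Agent.CGQ Pool.Agent.CG3
open Pool.Agent.CG2 (Pl Fv Ov RPl PolySys)

variable {F : Type} [Field F] [NumberField F] {n : ℕ}

/-- The Koecher polyhedron of the lattice `Lat g`, with weights given by the classes modulo
`N`. -/
def koeM (hn : 0 < n) (N : ℕ) (hN : 3 ≤ N) (C : Cls F n N → ℝ) (hC : GoodM N C)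
    (g : (sysG F n).A) : PolySys (ME F n) (PM F n).V where
  A := LatE g
  q := qm
  c := cM N C g
  Pos := (PM F n).KPos
  ctbl := ks_ctbl g
  ne := ks_ne N C hC g
  pos_ne := ⟨(PM F n).q 1, (PM F n).unit_kpos 1⟩
  comp := ks_comp N C hC g
  locfin := ks_locfin N C hC g
  indep := ks_indep N hN C hC g
  pos_open := PA.kpos_open
  pos_add := fun _ hl _ _ _ ha => PA.kpos_add hl _ ha
  pos_smul := fun _ hl _ ha => PA.kpos_smul hl ha
  unb := ks_unb N C hC g hn

/-- If the sum of the functionals of `R` is positive then only the zero matrix kills all elements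
of `R`. -/
theorem ker_zero {R : Finset (ME F n)} (hR : ∑ x ∈ R, qm x ∈ (PM F n).KPos) {Y : ME F n}
    (hY : ∀ x ∈ R, Y * x = 0) : Y = 0 := by
  by_contra hne
  set P := PM F n with hP
  set y := theta F n Y with hy
  have hy0 : y ≠ 0 := theta_ne hne
  obtain ⟨h, hh⟩ := P.exists_el (P.inv y * y) (by rw [P.inv_mul, P.inv_inv])
  have hq : ∀ x, P.q x h = P.sz (y * x) := by
    intro x
    rw [P.q_apply, hh, PA.sz, P.inv_mul, mul_assoc (P.inv y), P.tau_comm, mul_assoc, mul_assoc,
      mul_assoc]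
  have hpsd : P.PSD h := fun x => by
    rw [hq]
    exact P.sz_nonneg _
  have h0 : h ≠ 0 := by
    rintro rfl
    have h1 := hq 1
    rw [map_zero, mul_one] at h1
    have h2 := P.sz_pos hy0
    rw [← h1] at h2
    exact lt_irrefl _ h2
  have h1 := hR h hpsd h0
  rw [_root_.sum_apply] at h1
  have h2 : ∑ x ∈ R, qm x h = 0 := by
    refine Finset.sum_eq_zero fun x hx => ?_
    change P.q (theta F n x) h = 0
    rw [hq, hy, ← map_mul, hY x hx, map_zero, P.sz_zero]
  rw [h2] at h1
  exact lt_irrefl _ h1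

/-- The diagonal matrix with one entry `1`. -/
def ej (F : Type) [Field F] [NumberField F] (n : ℕ) (j : Fin n) : ME F n :=
  Matrix.diagonal (Pi.single j 1)

theorem mul_ej (x : ME F n) (j i k : Fin n) : (x * ej F n j) i k = if k = j then x i k else 0 := by
  rw [ej, Matrix.mul_diagonal, Pi.single_apply]
  split_ifs
  · rw [mul_one]
  · rw [mul_zero]

theorem ej_mul_self (j : Fin n) : ej F n j * ej F n j = ej F n j := by
  ext i k
  rw [mul_ej]
  split_ifs with h
  · rfl
  · subst_vars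
    rw [ej, Matrix.diagonal_apply]
    split_ifs with h1
    · subst h1
      rw [Pi.single_eq_of_ne h]
    · rfl

theorem sum_ej (F : Type) [Field F] [NumberField F] (n : ℕ) : ∑ j, ej F n j = 1 := by
  ext i k
  rw [Matrix.sum_apply]
  simp only [ej, Matrix.diagonal_apply, Matrix.one_apply]
  split_ifs with h
  · subst h
    rw [Finset.sum_pi_single]
    simp
  · simp

theorem ej_eq_mkM (j : Fin n) : ej F n j = mkM (fun i => (((if i = (j, j) then 1 else 0 : 𝓞 F)) : F)) := by
  apply co_ext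
  rintro ⟨i, k⟩
  rw [co_mkM]
  change ej F n j i k = _
  rw [ej, Matrix.diagonal_apply, Pi.single_apply]
  simp only [Prod.mk.injEq]
  split_ifs with h1 h2 h3 h3 h3 <;> simp_all

theorem mul_ej_mem {g : (sysG F n).A} {x : ME F n} (hx : x ∈ Lat g) (j : Fin n) :
    x * ej F n j ∈ Lat g := by
  rw [ej_eq_mkM]
  exact Lat_right g hx _

theorem inv_ej (j : Fin n) : (PM F n).inv (theta F n (ej F n j)) = theta F n (ej F n j) := by
  have hs : ∀ i k, ej F n j i k = ej F n j k i := by
    intro i k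
    rw [ej, Matrix.diagonal_apply, Matrix.diagonal_apply]
    by_cases h : i = k
    · subst h
      rfl
    · rw [if_neg h, if_neg (Ne.symm h)]
  refine Prod.ext ?_ ?_
  · funext w
    ext i k
    change embR w (ej F n j k i) = embR w (ej F n j i k)
    rw [hs]
  · funext w
    ext i k
    change (starRingEnd ℂ) (w.1.embedding (ej F n j k i)) = w.1.embedding (ej F n j i k)
    rw [hs, ej, Matrix.diagonal_apply, Pi.single_apply]
    split_ifs <;> simp

/-- The functional of a matrix is the sum of the functionals of its columns. -/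
theorem qm_cols (x : ME F n) (h : (PM F n).V) : qm x h = ∑ j, qm (x * ej F n j) h := by
  have key : theta F n x * (PM F n).inv (theta F n x) =
      ∑ j, theta F n (x * ej F n j) * (PM F n).inv (theta F n (x * ej F n j)) := by
    have h1 : ∀ j, theta F n (x * ej F n j) * (PM F n).inv (theta F n (x * ej F n j)) =
        theta F n x * (theta F n (ej F n j) * (PM F n).inv (theta F n x)) := by
      intro j
      rw [map_mul, (PM F n).inv_mul, inv_ej, mul_assoc,
        ← mul_assoc (theta F n (ej F n j)) (theta F n _), ← map_mul, ej_mul_self]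
    rw [Finset.sum_congr rfl fun j _ => h1 j, ← Finset.mul_sum, ← Finset.sum_mul, ← map_sum,
      sum_ej, map_one, one_mul]
  change (PM F n).q (theta F n x) h = ∑ j, (PM F n).q (theta F n (x * ej F n j)) h
  rw [(PM F n).q_apply, key, Finset.mul_sum, map_sum]
  rfl

theorem qm_nonneg {h : (PM F n).V} (hh : (PM F n).PSD h) (x : ME F n) : 0 ≤ qm x h := hh _

/-- A tight matrix has only one non-zero column. -/
theorem one_col {N : ℕ} {C : Cls F n N → ℝ} (hC : GoodM N C) {g : (sysG F n).A}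
    {h : (PM F n).V} (hh : ∀ e ∈ LatE g, cM N C g e ≤ qm e h) {x : ME F n} (hx : x ∈ LatE g)
    (ht : qm x h = cM N C g x) : ∃ j, ∀ i k, k ≠ j → x i k = 0 := by
  obtain ⟨i₀, j, hij⟩ : ∃ i j, x i j ≠ 0 := by
    by_contra hc
    push Not at hc
    exact hx.2 (Matrix.ext hc)
  refine ⟨j, fun i k hk => ?_⟩
  by_contra hik
  have hpsd : (PM F n).PSD h := (kyf_pd N C hC g h hh).psd
  have hne : ∀ i l, x i l ≠ 0 → 1 ≤ qm (x * ej F n l) h := by
    intro i l hil
    refine (hC.1 _).1.le.trans (hh _ ⟨mul_ej_mem hx.1 l, fun h0 => hil ?_⟩)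
    have h1 := congrFun (congrFun h0 i) l
    rwa [mul_ej, if_pos rfl] at h1
  have h1 := hne i₀ j hij
  have h2 := hne i k hik
  have h3 := qm_cols x h
  have h4 : qm (x * ej F n k) h + qm (x * ej F n j) h ≤ ∑ l, qm (x * ej F n l) h := by
    have h5 : ∑ l ∈ ({k, j} : Finset (Fin n)), qm (x * ej F n l) h =
        qm (x * ej F n k) h + qm (x * ej F n j) h := Finset.sum_pair hk
    rw [← h5]
    exact Finset.sum_le_sum_of_subset_of_nonneg (Finset.subset_univ _)
      fun l _ _ => qm_nonneg hpsd _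
  have h5 := (cM_lt hC g x).2
  rw [← ht, h3] at h5
  linarith

/-- The cells have at least `n` elements. -/
theorem koe_min (hn : 0 < n) (N : ℕ) (hN : 3 ≤ N) (C : Cls F n N → ℝ) (hC : GoodM N C)
    (g : (sysG F n).A) (R : Finset (ME F n)) (hR : (koeM hn N hN C hC g).Cell R) :
    n ≤ R.card := by
  classical
  by_contra hlt
  push Not at hlt
  obtain ⟨⟨hA, h, hh, ht⟩, hpos⟩ := hR
  have hcol : ∀ x : R, ∃ j, ∀ i k, k ≠ j → x.1 i k = 0 := fun x =>
    one_col hC hh (hA x.1 x.2) (ht x.1 x.2)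
  choose j hj using hcol
  let φ : (Fin n → F) →ₗ[F] (R → F) :=
    { toFun := fun y x => ∑ i, y i * x.1 i (j x)
      map_add' := fun a b => by
        funext x
        simp only [Pi.add_apply, add_mul, Finset.sum_add_distrib]
      map_smul' := fun c a => by
        funext x
        simp only [Pi.smul_apply, smul_eq_mul, mul_assoc, RingHom.id_apply, Finset.mul_sum] }
  have hker : LinearMap.ker φ ≠ ⊥ := by
    apply LinearMap.ker_ne_bot_of_finrank_lt
    rw [Module.finrank_fintype_fun_eq_card, Module.finrank_fintype_fun_eq_card, Fintype.card_fin,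
      Fintype.card_coe]
    exact hlt
  obtain ⟨y, hy, hy0⟩ := (Submodule.ne_bot_iff _).1 hker
  have hY : (Matrix.of fun _ k => y k : ME F n) = 0 := by
    refine ker_zero hpos fun x hx => ?_
    ext i k
    rw [Matrix.mul_apply]
    simp only [Matrix.of_apply, Matrix.zero_apply]
    by_cases hk : k = j ⟨x, hx⟩
    · rw [hk]
      exact congrFun hy ⟨x, hx⟩
    · refine Finset.sum_eq_zero fun l _ => ?_
      have h1 : x l k = 0 := hj ⟨x, hx⟩ l k hk
      rw [h1, mul_zero]
  exact hy0 (congrFun hY ⟨0, hn⟩)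

/-! ### The action -/

/-- The action is compatible with the functionals. -/
theorem actV_q (γ : (sysG F n).G) (x : ME F n) (h : (PM F n).V) :
    qm (γ • x) (actV γ h) = qm x h := by
  have h1 : theta F n (γ • x) = (thU F n (uG γ)).1 * theta F n x := map_mul (theta F n) _ _
  rw [qm, h1]
  exact (PM F n).hA_q _ _ _

section act

variable (hn : 0 < n) (N : ℕ) (hN : 3 ≤ N) (C : Cls F n N → ℝ) (hC : GoodM N C)

private theorem kyj_mem (γ : (sysG F n).G) (g : (sysG F n).A) (x : ME F n) :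
    γ • x ∈ LatE (diag γ * g) ↔ x ∈ LatE g := by
  refine and_congr (mem_Lat_diag γ g x) (not_congr ?_)
  constructor
  · intro h
    have h1 : γ⁻¹ • (γ • x) = γ⁻¹ • (0 : ME F n) := by rw [h]
    rw [inv_smul_smul, smul_ME, mul_zero] at h1
    exact h1
  · rintro rfl
    rw [smul_ME, mul_zero]

private theorem kyj_c (γ : (sysG F n).G) (g : (sysG F n).A)
    (x : ME F n) : cM N C (diag γ * g) (γ • x) = cM N C g x :=
  congrArg C (cls_diag N γ g x)

private theorem kyj_cell (g : (sysG F n).A) (R : Finset (ME F n)) :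
    (koeM hn N hN C hC g).Cell R ↔ ((∀ x ∈ R, x ∈ LatE g) ∧ ∃ h : (PM F n).V,
      (∀ x ∈ LatE g, cM N C g x ≤ qm x h) ∧ ∀ x ∈ R, qm x h = cM N C g x) ∧
      ∑ x ∈ R, qm x ∈ (PM F n).KPos := by
  constructor
  · rintro ⟨⟨h1, h, h2, h3⟩, h4⟩
    exact ⟨⟨h1, h, h2, h3⟩, h4⟩
  · rintro ⟨⟨h1, h, h2, h3⟩, h4⟩
    exact ⟨⟨h1, h, h2, h3⟩, h4⟩

private theorem kyj_le (γ : (sysG F n).G) (g : (sysG F n).A) (R : Finset (ME F n))
    (hR : (koeM hn N hN C hC g).Cell R) :
    (koeM hn N hN C hC (diag γ * g)).Cell (Sel.mp (MulAction.toPerm γ) R) := by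
  rw [kyj_cell] at hR ⊢
  obtain ⟨⟨h1, h, h2, h3⟩, h4⟩ := hR
  have hmem : ∀ x ∈ Sel.mp (MulAction.toPerm γ) R, γ⁻¹ • x ∈ R := by
    intro x hx
    rw [Sel.mem_mp] at hx
    exact hx
  refine ⟨⟨fun x hx => ?_, actV γ h, fun x hx => ?_, fun x hx => ?_⟩, ?_⟩
  · have h5 := (kyj_mem γ g (γ⁻¹ • x)).2 (h1 _ (hmem x hx))
    rwa [smul_inv_smul] at h5
  · have h5 : γ⁻¹ • x ∈ LatE g := by
      rw [← kyj_mem γ g, smul_inv_smul]
      exact hx
    have h7 := h2 _ h5
    rwa [← kyj_c N C γ g, ← actV_q γ, smul_inv_smul] at h7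
  · have h7 := h3 _ (hmem x hx)
    rwa [← kyj_c N C γ g, ← actV_q γ, smul_inv_smul] at h7
  · intro h' hh' h0'
    obtain ⟨h'', rfl⟩ := (actV γ).surjective h'
    have h5 : (∑ x ∈ Sel.mp (MulAction.toPerm γ) R, qm x) (actV γ h'') = (∑ x ∈ R, qm x) h'' := by
      rw [_root_.sum_apply, _root_.sum_apply, Sel.mp, Finset.sum_map]
      refine Finset.sum_congr rfl fun x _ => ?_
      exact actV_q γ x h''
    rw [h5]
    refine h4 h'' (((PM F n).hA_psd _ _).2 hh') ?_
    rintro rfl
    exact h0' (map_zero _)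

/-- The cells are permuted by the group. -/
theorem koe_cell_smul (γ : (sysG F n).G) (g : (sysG F n).A) (R : Finset (ME F n)) :
    (koeM hn N hN C hC (diag γ * g)).Cell (Sel.mp (MulAction.toPerm γ) R) ↔
      (koeM hn N hN C hC g).Cell R := by
  refine ⟨fun h => ?_, kyj_le hn N hN C hC γ g R⟩
  have h1 := kyj_le hn N hN C hC γ⁻¹ _ _ h
  have h2 : diag γ⁻¹ * (diag γ * g) = g := by
    rw [← mul_assoc, ← map_mul, inv_mul_cancel, map_one, one_mul]
  have h3 : Sel.mp (MulAction.toPerm γ⁻¹) (Sel.mp (MulAction.toPerm γ) R) = R := by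
    ext x
    rw [Sel.mem_mp, Sel.mem_mp]
    change γ⁻¹ • ((γ⁻¹)⁻¹ • x) ∈ R ↔ x ∈ R
    rw [inv_inv, inv_smul_smul]
  rwa [h2, h3] at h1

/-- The cells only depend on the class of `g` modulo the principal congruence subgroup. -/
theorem koe_cell_mul (g : (sysG F n).A) {k : (sysG F n).A} (hk : k ∈ KN F n N)
    (R : Finset (ME F n)) :
    (koeM hn N hN C hC (g * k)).Cell R ↔ (koeM hn N hN C hC g).Cell R := by
  have hL : Lat (g * k) = Lat g := Lat_mul g fun v => (hk v).1
  have hLE : LatE (g * k) = LatE g := by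
    ext x
    change x ∈ Lat (g * k) ∧ x ≠ 0 ↔ x ∈ Lat g ∧ x ≠ 0
    rw [hL]
  have hc : ∀ x ∈ LatE g, cM N C (g * k) x = cM N C g x := fun x hx =>
    congrArg C (cls_mul N (by omega) g hk hx.1)
  rw [kyj_cell, kyj_cell, hLE]
  refine and_congr_left fun _ => and_congr_right fun h1 => exists_congr fun h => and_congr ?_ ?_
  · refine forall_congr' fun x => ⟨fun H hx => ?_, fun H hx => ?_⟩
    · rw [← hc x hx]
      exact H hx
    · rw [hc x hx]
      exact H hx
  · refine forall_congr' fun x => ⟨fun H hx => ?_, fun H hx => ?_⟩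
    · rw [← hc x (h1 x hx)]
      exact H hx
    · rw [hc x (h1 x hx)]
      exact H hx

/-- The action on the cells is free. -/
theorem koe_free (γ : (sysG F n).G) (g k : (sysG F n).A) (hk : k ∈ KN F n N)
    (hγ : diag γ * g = g * k) (R : Finset (ME F n)) (hR : (koeM hn N hN C hC g).Cell R)
    (hf : Sel.mp (MulAction.toPerm γ) R = R) : γ = 1 := by
  obtain ⟨⟨hA, h, hh, ht⟩, hpos⟩ := (kyj_cell hn N hN C hC g R).1 hR
  have hfix : ∀ x ∈ R, γ • x = x := by
    intro x hx
    have hγx : γ • x ∈ R := by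
      rw [← hf, Sel.mem_mp]
      change γ⁻¹ • (γ • x) ∈ R
      rw [inv_smul_smul]
      exact hx
    have h1 : cls N g (γ • x) = cls N g x := by
      rw [← cls_mul N (by omega) g hk (hA _ hγx).1, ← hγ]
      exact cls_diag N γ g x
    exact ks_inj N hN C hC g h hh (hA _ hγx) (hA _ hx) (ht _ hγx) (ht _ hx) h1
  have h0 : (uG γ).1 - 1 = 0 := ker_zero hpos fun x hx => by
    rw [sub_mul, one_mul, ← smul_ME, hfix x hx, sub_self]
  exact Units.ext (sub_eq_zero.1 h0)

end act

end Pool.Agent.KGn
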