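import Pool.Agent.KGn.Defs

/-!
# Lattices in `D`: bounds
-/

noncomputable section

set_option linter.unusedSectionVars false

namespace Pool.Agent.KGn

open NumberField IsDedekindDomain Pool.Agent.CGQ
open Pool.Agent.CG2 (Pl Fv Ov RPl)
open Pool.Agent.CGN (GQ GZ)


variable {F : Type} [Field F] [NumberField F] {n : ℕ}

/-- **KLB.** PROOF. Port of `CG2.Lat_bounds` (`KoeLat_exists_small_set`): the coordinates of
`g_v`, `g_v⁻¹` are integral outside of a finite set. -/
theorem Lat_bounds (g : (sysG F n).A) : ∃ N : ℕ, 0 < N ∧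
    (∀ r : Fin n × Fin n → 𝓞 F, ((N : ℕ) : ME F n) * mkM (fun i => ((r i : 𝓞 F) : F)) ∈ Lat g) ∧
    ∀ x ∈ Lat g, ∀ i, ∃ a : 𝓞 F, ((N : ℕ) : F) * co x i = a := by
  classical
  -- the sizes of the entries
  let m : Pl F → WithZero (Multiplicative ℤ) := fun v =>
    max 1 (max (Finset.univ.sup fun i : Fin n × Fin n => Valued.v (co (gv g v).1 i))
      (Finset.univ.sup fun i : Fin n × Fin n => Valued.v (co ((gv g v)⁻¹ : GQ n v).1 i)))
  have hm1 : ∀ v, 1 ≤ m v := fun v => le_max_left _ _
  have hm0 : ∀ v, m v ≠ 0 := fun v h => by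
    have := hm1 v
    rw [h] at this
    exact absurd this (by simp)
  have hg : ∀ v i, Valued.v (co (gv g v).1 i) ≤ m v := by
    intro v i
    exact (Finset.le_sup (f := fun i : Fin n × Fin n => Valued.v (co (gv g v).1 i))
      (Finset.mem_univ i)).trans ((le_max_left _ _).trans (le_max_right _ _))
  have hgi : ∀ v i, Valued.v (co ((gv g v)⁻¹ : GQ n v).1 i) ≤ m v := by
    intro v i
    exact (Finset.le_sup (f := fun i : Fin n × Fin n => Valued.v (co ((gv g v)⁻¹ : GQ n v).1 i))
      (Finset.mem_univ i)).trans ((le_max_right _ _).trans (le_max_right _ _))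
  obtain ⟨N, hN, hN2⟩ := CG2.KoeLat_exists_small_set {v | gv g v ∉ GZ n v} g.2
    (fun v => (m v)⁻¹) (fun v => inv_ne_zero (hm0 v))
  have key : ∀ v (y : MV n v), (∀ i, Valued.v (co y i) ≤ m v) → (gv g v ∈ GZ n v → IntM v y) →
      IntM v (((N : ℕ) : MV n v) * y) := by
    intro v y h1 h2
    by_cases hv : gv g v ∈ GZ n v
    · refine intM_mul ((intM_iff_co v _).2 fun i => ?_) (h2 hv)
      have h3 := co_nat N (1 : MV n v) i
      rw [mul_one] at h3
      rw [h3, map_mul]
      refine mul_le_one' (CG2.KoeLat_val_natCast_le v N) ?_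
      exact intM_one i
    · refine (intM_iff_co v _).2 fun i => ?_
      rw [co_nat, map_mul]
      calc _ ≤ (m v)⁻¹ * m v := mul_le_mul' (hN2 v hv) (h1 i)
        _ = 1 := inv_mul_cancel₀ (hm0 v)
  refine ⟨N, hN, ?_, ?_⟩
  · intro r v
    have h1 : iq g (((N : ℕ) : ME F n) * mkM (fun i => ((r i : 𝓞 F) : F))) v =
        (((N : ℕ) : MV n v) * ((gv g v)⁻¹ : GQ n v).1) *
          lm v (mkM (fun i => ((r i : 𝓞 F) : F))) := by
      rw [iq, map_mul, map_natCast, ← mul_assoc, (Nat.cast_commute N _).eq]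
    rw [h1]
    refine intM_mul (key v _ (hgi v) fun hv => ((mem_GZ v _).1 hv).2)
      ((intM_iff_co v _).2 fun i => ?_)
    rw [co_lm, co_mkM]
    exact CG2.KoeLat_val_coe_le v (r i)
  · intro x hx i
    have h1 : ∀ v : Pl F, v.valuation F (((N : ℕ) : F) * co x i) ≤ 1 := by
      intro v
      rw [← HeightOneSpectrum.adicCompletion.valued_coe]
      have h2 : (((((N : ℕ) : F) * co x i) : F) : Fv v) =
          ((N : ℕ) : Fv v) * ((co x i : F) : Fv v) := by
        have := map_mul (algebraMap F (Fv v)) ((N : ℕ) : F) (co x i)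
        rw [map_natCast] at this
        exact this
      have h3 : ((N : ℕ) : MV n v) * lm v x =
          (((N : ℕ) : MV n v) * (gv g v).1) * iq g x v := by
        rw [iq, mul_assoc, ← mul_assoc (gv g v).1, Units.mul_inv, one_mul]
      have h4 : IntM v (((N : ℕ) : MV n v) * lm v x) := by
        rw [h3]
        exact intM_mul (key v _ (hg v) fun hv => ((mem_GZ v _).1 hv).1) (hx v)
      have h5 := (intM_iff_co v _).1 h4 i
      rw [co_nat, co_lm] at h5
      rw [h2]
      exact h5
    obtain ⟨a, ha⟩ := HeightOneSpectrum.mem_integers_of_valuation_le_one F _ h1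
    exact ⟨a, ha.symm⟩

end Pool.Agent.KGn
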