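import Pool.Agent.KGn.Defs

/-!
# The classes of the elements of a lattice
-/

noncomputable section

set_option linter.unusedSectionVars false

namespace Pool.Agent.KGn

open NumberField IsDedekindDomain Pool.Agent.CGQ
open Pool.Agent.CG2 (Pl Fv Ov RPl)
open Pool.Agent.CGN (GQ GZ)


variable {F : Type} [Field F] [NumberField F] {n : ℕ}

/-- **KLE.** PROOF. Port of `CG2.exists_cls`. -/
theorem exists_cls (N : ℕ) (hN : N ≠ 0) (g : (sysG F n).A) (x : ME F n) (hx : x ∈ Lat g) :
    ∃ r, IsCls N g x r := by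
  classical
  have hxi : ∀ (v : Pl F) (i : Fin n × Fin n), Valued.v (co (iq g x v) i) ≤ 1 := fun v i =>
    (intM_iff_co v _).1 (hx v) i
  have key : ∀ i : Fin n × Fin n, ∃ r : 𝓞 F, ∀ v : Pl F,
      Valued.v (co (iq g x v) i - (((r : 𝓞 F) : F) : Fv v)) ≤ Valued.v ((N : ℕ) : Fv v) := by
    intro i
    have h1 : ∀ v : Pl F, ∃ a : F, Valued.v (co (iq g x v) i - ((a : F) : Fv v)) ≤
        Valued.v ((N : ℕ) : Fv v) := fun v => by
      obtain ⟨a, ha⟩ := CG2.exists_sub_lt v (co (iq g x v) i) _ (CG2.KoeLat_val_natCast_ne v hN)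
      exact ⟨a, ha.le⟩
    choose a ha using h1
    have h2 : ∀ v : Pl F, ∃ e : ℤ, Valued.v ((N : ℕ) : Fv v) = WithZero.exp (-e) := fun v =>
      ⟨-WithZero.log (Valued.v ((N : ℕ) : Fv v)), by
        rw [neg_neg, WithZero.exp_log (CG2.KoeLat_val_natCast_ne v hN)]⟩
    choose e he using h2
    obtain ⟨r, hr1, hr2⟩ := CG2.approx (CG2.KoeCls_fin F N hN).toFinset a e
    have h3 : ∀ v ∈ (CG2.KoeCls_fin F N hN).toFinset,
        Valued.v (co (iq g x v) i - ((r : F) : Fv v)) ≤ Valued.v ((N : ℕ) : Fv v) := by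
      intro v hv
      have h4 := hr1 v hv
      rw [CG2.Ge, ← he v, ← HeightOneSpectrum.adicCompletion.valued_coe] at h4
      have h5 : (((r - a v : F)) : Fv v) = ((r : F) : Fv v) - ((a v : F) : Fv v) :=
        map_sub (algebraMap F (Fv v)) r (a v)
      rw [h5, ← Valuation.map_neg] at h4
      have h6 : co (iq g x v) i - ((r : F) : Fv v) = (co (iq g x v) i - ((a v : F) : Fv v)) +
          -(((r : F) : Fv v) - ((a v : F) : Fv v)) := by ring
      rw [h6]
      exact (Valuation.map_add _ _ _).trans (max_le (ha v) h4)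
    have hint : ∀ v : Pl F, v.valuation F r ≤ 1 := by
      intro v
      by_cases hv : v ∈ (CG2.KoeCls_fin F N hN).toFinset
      · rw [← HeightOneSpectrum.adicCompletion.valued_coe]
        have h6 : ((r : F) : Fv v) = co (iq g x v) i +
            -(co (iq g x v) i - ((r : F) : Fv v)) := by ring
        rw [h6]
        refine (Valuation.map_add _ _ _).trans (max_le (hxi v i) ?_)
        rw [Valuation.map_neg]
        exact (h3 v hv).trans (CG2.KoeLat_val_natCast_le v N)
      · have := hr2 v hv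
        rwa [CG2.Ge, neg_zero, WithZero.exp_zero] at this
    obtain ⟨b, hb⟩ := HeightOneSpectrum.mem_integers_of_valuation_le_one F _ hint
    refine ⟨b, fun v => ?_⟩
    have hb' : ((b : 𝓞 F) : F) = r := hb
    rw [hb']
    by_cases hv : v ∈ (CG2.KoeCls_fin F N hN).toFinset
    · exact h3 v hv
    · rw [Set.Finite.mem_toFinset, Set.mem_ofPred_eq, not_not] at hv
      rw [hv, sub_eq_add_neg]
      refine (Valuation.map_add _ _ _).trans (max_le (hxi v i) ?_)
      rw [Valuation.map_neg, HeightOneSpectrum.adicCompletion.valued_coe]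
      exact hint v
  choose r hr using key
  exact ⟨r, fun v i => hr i v⟩

private theorem KLE_spec (N : ℕ) (hN : N ≠ 0) (g : (sysG F n).A) (x : ME F n) (hx : x ∈ Lat g) :
    ∃ r, IsCls N g x r ∧ cls N g x = fun i => Ideal.Quotient.mk _ (r i) := by
  have h := exists_cls N hN g x hx
  refine ⟨h.choose, h.choose_spec, ?_⟩
  rw [cls, dif_pos h]

/-- **KLF.** PROOF. Port of `CG2.cls_eq`. -/
theorem cls_eq (N : ℕ) (hN : N ≠ 0) (g : (sysG F n).A) (x y : ME F n) (hx : x ∈ Lat g)
    (hy : y ∈ Lat g) (h : cls N g x = cls N g y) :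
    ∃ u ∈ Lat g, x - y = ((N : ℕ) : ME F n) * u := by
  have hN0 : ((N : ℕ) : F) ≠ 0 := Nat.cast_ne_zero.2 hN
  obtain ⟨r, hr1, hr2⟩ := KLE_spec N hN g x hx
  obtain ⟨s, hs1, hs2⟩ := KLE_spec N hN g y hy
  rw [hr2, hs2] at h
  have h1 : ∀ i, ∃ t : 𝓞 F, r i - s i = ((N : ℕ) : 𝓞 F) * t := by
    intro i
    have h2 := congrFun h i
    rw [Ideal.Quotient.eq, Ideal.mem_span_singleton] at h2
    exact h2
  have hdiv : ∀ v : Pl F, DivM N v (iq g (x - y) v) := by
    intro v i
    obtain ⟨t, ht⟩ := h1 i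
    have h3 : co (iq g (x - y) v) i = (co (iq g x v) i - (((r i : 𝓞 F) : F) : Fv v)) +
        -(co (iq g y v) i - (((s i : 𝓞 F) : F) : Fv v)) +
          ((N : ℕ) : Fv v) * (((t : 𝓞 F) : F) : Fv v) := by
      have h4 : co (iq g (x - y) v) i = co (iq g x v) i - co (iq g y v) i := by
        rw [sub_eq_add_neg, iq_add, iq_neg, co_add, co_neg, sub_eq_add_neg]
      have h6 : ((N : ℕ) : Fv v) * (((t : 𝓞 F) : F) : Fv v) =
          (((r i : 𝓞 F) : F) : Fv v) - (((s i : 𝓞 F) : F) : Fv v) := by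
        have h7 : ((r i : 𝓞 F) : F) - ((s i : 𝓞 F) : F) = ((N : ℕ) : F) * ((t : 𝓞 F) : F) := by
          have := congrArg (algebraMap (𝓞 F) F) ht
          rw [map_sub, map_mul, map_natCast] at this
          exact this
        have h8 := congrArg (algebraMap F (Fv v)) h7
        rw [map_sub, map_mul, map_natCast] at h8
        exact h8.symm
      rw [h4, h6]
      ring
    rw [h3]
    refine (Valuation.map_add _ _ _).trans (max_le ((Valuation.map_add _ _ _).trans
      (max_le (hr1 v i) ?_)) ?_)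
    · rw [Valuation.map_neg]
      exact hs1 v i
    · rw [map_mul]
      calc _ ≤ Valued.v ((N : ℕ) : Fv v) * 1 := mul_le_mul' le_rfl (CG2.KoeLat_val_coe_le v t)
        _ = _ := mul_one _
  -- division by `N`
  let c : ME F n := algebraMap F (ME F n) ((N : ℕ) : F)⁻¹
  have hc : ((N : ℕ) : ME F n) * c = 1 := by
    have h5 : ((N : ℕ) : ME F n) = algebraMap F (ME F n) ((N : ℕ) : F) := (map_natCast _ _).symm
    rw [h5, ← map_mul, mul_inv_cancel₀ hN0, map_one]
  refine ⟨c * (x - y), ?_, by rw [← mul_assoc, hc, one_mul]⟩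
  intro v
  obtain ⟨z, hz, hz2⟩ := (divM_iff _).1 (hdiv v)
  have h9 : iq g (c * (x - y)) v = z := by
    have h10 : ((N : ℕ) : MV n v) * iq g (c * (x - y)) v = iq g (x - y) v := by
      rw [iq, iq, ← mul_assoc, (Nat.cast_commute N _).eq, mul_assoc]
      congr 1
      rw [← map_natCast (lm v) N, ← map_mul, ← mul_assoc, hc, one_mul]
    have h11 : ((N : ℕ) : MV n v) * iq g (c * (x - y)) v = ((N : ℕ) : MV n v) * z := by
      rw [h10, hz2]
    have h12 : lm v c * ((N : ℕ) : MV n v) = 1 := by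
      rw [← map_natCast (lm v) N, ← map_mul, (Nat.commute_cast c N).eq, hc, map_one]
    calc iq g (c * (x - y)) v = lm v c * (((N : ℕ) : MV n v) * iq g (c * (x - y)) v) := by
          rw [← mul_assoc, h12, one_mul]
      _ = lm v c * (((N : ℕ) : MV n v) * z) := by rw [h11]
      _ = z := by rw [← mul_assoc, h12, one_mul]
  rw [h9]
  exact hz

end Pool.Agent.KGn
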