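import Pool.Agent.KGn.LB
import Pool.Agent.CGN.KNm

/-!
# Lattices are discrete
-/

noncomputable section

set_option linter.unusedSectionVars false

namespace Pool.Agent.KGn

open NumberField IsDedekindDomain Pool.Agent.CGQ
open Pool.Agent.CG2 (Pl Fv Ov RPl)
open Pool.Agent.CGN (GQ GZ)
open scoped Classical

variable {F : Type} [Field F] [NumberField F] {n : ℕ}

/-- The size is equivalent to the square of the norm of the coordinates. -/
theorem sz_co (F : Type) [Field F] [NumberField F] (n : ℕ) : ∃ c C : ℝ, 0 < c ∧ 0 ≤ C ∧ ∀ x : AI F n,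
    c * ‖linM F n x‖ ^ 2 ≤ (PM F n).sz x ∧ (PM F n).sz x ≤ C * ‖linM F n x‖ ^ 2 := by
  obtain ⟨c, C, hc, hC, h⟩ := CGN.sz_equiv (PM F n) (linM F n).symm
  refine ⟨c, C, hc, hC, fun x => ?_⟩
  have h1 := h (linM F n x)
  rwa [LinearEquiv.symm_apply_apply] at h1

theorem normAtPlace_le (w : InfinitePlace F) (u : mixedEmbedding.mixedSpace F) : mixedEmbedding.normAtPlace w u ≤ ‖u‖ := by
  rcases w.isReal_or_isComplex with hw | hw
  · rw [mixedEmbedding.normAtPlace_apply_of_isReal hw]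
    exact (norm_le_pi_norm u.1 ⟨w, hw⟩).trans (norm_fst_le u)
  · rw [mixedEmbedding.normAtPlace_apply_of_isComplex hw]
    exact (norm_le_pi_norm u.2 ⟨w, hw⟩).trans (norm_snd_le u)

/-- The coordinates are bounded by the size. -/
theorem KLL_bd (F : Type) [Field F] [NumberField F] (n : ℕ) (C : ℝ) : ∃ D : ℝ, ∀ x : ME F n, (PM F n).sz (theta F n x) ≤ C →
    ∀ (w : InfinitePlace F) (i : Fin n × Fin n), w (co x i) ≤ D := by
  obtain ⟨c, C', hc, _, h⟩ := sz_co F n
  refine ⟨Real.sqrt (|C| / c), fun x hx w i => ?_⟩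
  have h1 := (h (theta F n x)).1
  have h2 : ‖linM F n (theta F n x)‖ ^ 2 ≤ |C| / c := by
    rw [le_div_iff₀ hc, mul_comm]
    exact h1.trans (hx.trans (le_abs_self C))
  have h3 := Real.le_sqrt_of_sq_le h2
  have h4 : w (co x i) = mixedEmbedding.normAtPlace w (linM F n (theta F n x) i) := by
    rw [linM_theta, mixedEmbedding.normAtPlace_apply]
  rw [h4]
  exact (normAtPlace_le w _).trans ((norm_le_pi_norm (linM F n (theta F n x)) i).trans h3)

/-- **KLL.** Lattices are discrete. -/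
theorem lat_disc (g : (sysG F n).A) (C : ℝ) :
    {x | x ∈ LatI g ∧ (PM F n).sz x ≤ C}.Finite := by
  obtain ⟨D, hD⟩ := KLL_bd F n C
  obtain ⟨N, hN, -, h2⟩ := Lat_bounds g
  have hfin := Embeddings.finite_of_norm_le F ℂ ((N : ℝ) * D)
  have hfin2 : (Set.pi (Set.univ : Set (Fin n × Fin n))
      fun _ => {x : F | IsIntegral ℤ x ∧ ∀ φ : F →+* ℂ, ‖φ x‖ ≤ (N : ℝ) * D}).Finite :=
    Set.Finite.pi fun _ => hfin
  have hN0 : ((N : ℕ) : F) ≠ 0 := Nat.cast_ne_zero.2 hN.ne'
  have hfin3 : {x : ME F n | x ∈ Lat g ∧ (PM F n).sz (theta F n x) ≤ C}.Finite := by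
    refine Set.Finite.of_finite_image (f := fun x : ME F n => (fun i => ((N : ℕ) : F) * co x i :
      Fin n × Fin n → F)) (hfin2.subset ?_) ?_
    · rintro _ ⟨x, ⟨hx1, hx2⟩, rfl⟩ i _
      obtain ⟨a, ha⟩ := h2 x hx1 i
      refine ⟨?_, fun φ => ?_⟩
      · change IsIntegral ℤ (((N : ℕ) : F) * co x i)
        rw [ha]
        exact a.isIntegral_coe
      · change ‖φ (((N : ℕ) : F) * co x i)‖ ≤ _
        rw [map_mul, map_natCast, norm_mul, Complex.norm_natCast]
        refine mul_le_mul_of_nonneg_left ?_ (Nat.cast_nonneg N)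
        have := hD x hx2 (InfinitePlace.mk φ) i
        rwa [InfinitePlace.apply] at this
    · intro x _ y _ hxy
      exact co_ext fun i => mul_left_cancel₀ hN0 (congrFun hxy i)
  refine (hfin3.image (theta F n)).subset ?_
  rintro _ ⟨⟨x, hx, rfl⟩, hs⟩
  exact ⟨x, ⟨hx, hs⟩, rfl⟩

end Pool.Agent.KGn
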