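import Pool.Agent.CGQ.SysOC
import Pool.Agent.CG2.CellDefs
import Pool.Agent.CG2.PolyCx
import Pool.Agent.CG2.PolyAsc
import Pool.Agent.CG2.PolyOr
import Pool.Agent.CG2.PolyDouble
import Pool.Agent.CG2.PolyProd

/-!
# Equivariant families of polyhedra and their systems of cells
-/

noncomputable section

namespace Pool.Agent.KGn

open NumberField IsDedekindDomain Pool.Agent.CG3 Pool.Agent.CGQ
open Pool.Agent.CG2 (Pl PolySys CellSys Asc)

variable {F : Type} [Field F] [NumberField F]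

/-- An equivariant family of polyhedra, indexed by the elements of `A`. -/
structure PFc (𝒟 : Sys F) (K1 : Subgroup 𝒟.A) (E V : Type) [MulAction 𝒟.G E]
    [NormedAddCommGroup V] [NormedSpace ℝ V] [FiniteDimensional ℝ V] where
  /-- the polyhedra -/
  P : 𝒟.A → PolySys E V
  /-- the functionals -/
  q : E → (V →L[ℝ] ℝ)
  hq : ∀ g, (P g).q = q
  /-- the positive functionals -/
  Pos : Set (V →L[ℝ] ℝ)
  hPos : ∀ g, (P g).Pos = Pos
  /-- one less than the dimension -/
  n0 : ℕ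
  /-- a basis of `V` -/
  bas : Module.Basis (Fin (n0 + 1)) ℝ V
  /-- the action of `G` on `V` -/
  act : 𝒟.G → (V ≃ₗ[ℝ] V)
  act_q : ∀ γ e h, q (γ • e) (act γ h) = q e h
  /-- the orientation character -/
  sg : 𝒟.Sg →* ℤˣ
  act_det : ∀ γ, 0 < LinearMap.det (act γ : V →ₗ[ℝ] V) * (((sg (𝒟.sgn γ) : ℤˣ) : ℤ) : ℝ)
  /-- a lower bound for the size of the cells -/
  c0 : ℕ
  min : ∀ g R, (P g).Cell R → c0 ≤ R.card
  cell_smul : ∀ γ g R, (P (diag γ * g)).Cell (Sel.mp (MulAction.toPerm γ) R) ↔ (P g).Cell R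
  cell_mul : ∀ g, ∀ k ∈ K1, ∀ R, (P (g * k)).Cell R ↔ (P g).Cell R
  free : ∀ γ g, ∀ k ∈ K1, diag γ * g = g * k → ∀ R, (P g).Cell R →
    Sel.mp (MulAction.toPerm γ) R = R → γ = 1

namespace PFc

variable {𝒟 : Sys F} {K1 : Subgroup 𝒟.A} {E V : Type} [MulAction 𝒟.G E] [DecidableEq E]
  [NormedAddCommGroup V] [NormedSpace ℝ V] [FiniteDimensional ℝ V] (X : PFc 𝒟 K1 E V)

/-- The sign of the determinant of the functionals of a tuple. -/
def sdet (t : Fin (X.n0 + 1) → E) : ℤ :=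
  SignType.sign (Matrix.det (Matrix.of fun i j => X.q (t i) (X.bas j)))

open Classical in
/-- The orientation of the cells of maximal dimension. -/
def ori {K : Subgroup 𝒟.A} (b : PtK K) (t : Fin (X.n0 + 1) → E) : ℤ :=
  if Sel.ctc (X.P (outK b).2).Cell t then ((X.sg (outK b).1 : ℤˣ) : ℤ) * X.sdet t else 0

theorem n0_eq : X.n0 + 1 = Module.finrank ℝ V := by
  rw [Module.finrank_eq_card_basis X.bas, Fintype.card_fin]

end PFc

end Pool.Agent.KGn
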