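import Pool.Agent.KGn.LC
import Pool.Agent.KGn.LE
import Pool.Agent.KGn.LI
import Pool.Agent.KGn.LJ
import Pool.Agent.KGn.LM
import Pool.Agent.CGQ.KMI
import Pool.Agent.CGQ.KMK

/-!
# The Koecher polyhedron: first properties
-/

noncomputable section

set_option linter.unusedSectionVars false

namespace Pool.Agent.KGn

open NumberField IsDedekindDomain Pool.Agent.CGQ Pool.Agent.CG3
open Pool.Agent.CG2 (Pl Fv Ov RPl PolySys)

variable {F : Type} [Field F] [NumberField F] {n : ℕ}

theorem theta_inj (F : Type) [Field F] [NumberField F] (n : ℕ) :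
    Function.Injective (theta F n) := by
  intro x y h
  apply co_ext
  intro i
  apply mixedEmbedding_injective F
  rw [← linM_theta, ← linM_theta, h]

theorem theta_ne {x : ME F n} (h : x ≠ 0) : theta F n x ≠ 0 := fun h0 =>
  h (theta_inj F n (h0.trans (map_zero _).symm))

section fields

variable (N : ℕ) (hN : 3 ≤ N) (C : Cls F n N → ℝ) (hC : GoodM N C)
  (g : (sysG F n).A)

/-- A form with values at least `1` on the lattice is positive definite. -/
theorem ks_pd (h : (PM F n).V) (hh : ∀ e ∈ LatE g, 1 ≤ qm e h) : (PM F n).PD h := by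
  refine (PM F n).pd_of_lat (isLat g) h fun z hz hz0 => ?_
  obtain ⟨x, hx, rfl⟩ := mem_LatI.1 hz
  have hx0 : x ≠ 0 := by
    rintro rfl
    exact hz0 (map_zero _)
  exact hh x ⟨hx, hx0⟩

/-- There are large forms. -/
theorem ks_large : ∃ h : (PM F n).V, (PM F n).PD h ∧ ∀ e ∈ LatE g, 2 ≤ qm e h := by
  obtain ⟨h, h1, h2⟩ := (PM F n).exists_large (isLat g)
  exact ⟨h, h1, fun e he => h2 _ (mem_LatI.2 ⟨_, he.1, rfl⟩) (theta_ne he.2)⟩

include hN hC in
/-- Two tight matrices with the same class are equal. -/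
theorem ks_inj (h : (PM F n).V) (hh : ∀ e ∈ LatE g, cM N C g e ≤ qm e h)
    {x y : ME F n} (hx : x ∈ LatE g) (hy : y ∈ LatE g) (hqx : qm x h = cM N C g x)
    (hqy : qm y h = cM N C g y)
    (hxy : cls N g x = cls N g y) : x = y := by
  obtain ⟨u, hu, hxyu⟩ := cls_eq N (by omega) g _ _ hx.1 hy.1 hxy
  by_contra hne
  have hu0 : u ≠ 0 := by
    rintro rfl
    apply hne
    rw [mul_zero, sub_eq_zero] at hxyu
    exact hxyu
  have h1 : 1 ≤ qm u h := (hC.1 _).1.le.trans (hh u ⟨hu, hu0⟩)
  have hpd : (PM F n).PD h := ks_pd g h fun e he => (hC.1 _).1.le.trans (hh e he)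
  have hpsd : 0 ≤ (PM F n).q (theta F n x + theta F n y) h := hpd.psd _
  have h2 := (PM F n).q_par (theta F n x) (theta F n y) h
  have h3 : (PM F n).q (theta F n x - theta F n y) h = (N : ℝ) ^ 2 * qm u h := by
    rw [← map_sub, hxyu, map_mul, map_natCast, PA.q_natCast]
    rfl
  have hqx' : (PM F n).q (theta F n x) h = cM N C g x := hqx
  have hqy' : (PM F n).q (theta F n y) h = cM N C g y := hqy
  rw [h3, hqx', hqy'] at h2
  have h4 := (cM_lt hC g x).2
  have h5 := (cM_lt hC g y).2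
  have h6 : (3 : ℝ) ≤ N := by exact_mod_cast hN
  have h7 : (9 : ℝ) ≤ (N : ℝ) ^ 2 := by nlinarith
  nlinarith

theorem ks_ctbl : (LatE g).Countable := by
  have h3 := countable_ME F n
  exact Set.to_countable _

include hC in
theorem ks_ne : {h : (PM F n).V | ∀ e ∈ LatE g, cM N C g e ≤ qm e h}.Nonempty := by
  obtain ⟨h, _, h2⟩ := ks_large g
  refine ⟨h, fun e he => ?_⟩
  have h3 := (cM_lt hC g e).2
  have h4 := h2 e he
  linarith

end fields

end Pool.Agent.KGn
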