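import Pool.Agent.KGn.YA
import Pool.Agent.CG2.PolyDefs

/-!
# The Koecher polyhedron: compactness, local finiteness, independence
-/

noncomputable section

set_option linter.unusedSectionVars false

namespace Pool.Agent.KGn

open NumberField IsDedekindDomain Pool.Agent.CGQ Pool.Agent.CG3
open Pool.Agent.CG2 (Pl Fv Ov RPl PolySys)

variable {F : Type} [Field F] [NumberField F] {n : ℕ}

section fields

variable (N : ℕ) (hN : 3 ≤ N) (C : Cls F n N → ℝ) (hC : GoodM N C)
  (g : (sysG F n).A)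

include hC in
theorem kyf_pd (h : (PM F n).V) (hh : ∀ e ∈ LatE g, cM N C g e ≤ qm e h) :
    (PM F n).PD h :=
  ks_pd g h fun e he => (cM_lt hC g e).1.le.trans (hh e he)

include hC in
theorem ks_comp : ∀ l ∈ (PM F n).KPos, ∀ t : ℝ,
    IsCompact {h : (PM F n).V | (∀ e ∈ LatE g, cM N C g e ≤ qm e h) ∧ l h ≤ t} := by
  intro l hl t
  refine Metric.isCompact_of_isClosed_isBounded ?_ ?_
  · have h1 : {h : (PM F n).V | (∀ e ∈ LatE g, cM N C g e ≤ qm e h) ∧ l h ≤ t} =
        (⋂ e ∈ LatE g, {h : (PM F n).V | cM N C g e ≤ qm e h}) ∩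
          {h : (PM F n).V | l h ≤ t} := by
      ext h
      simp only [Set.mem_ofPred_eq, Set.mem_inter_iff, Set.mem_iInter]
    rw [h1]
    refine IsClosed.inter (isClosed_biInter fun e _ => ?_) ?_
    · exact isClosed_le continuous_const (qm e).continuous
    · exact isClosed_le l.continuous continuous_const
  · refine (PA.kpos_bounded hl t).subset ?_
    rintro h ⟨h1, h2⟩
    exact ⟨(kyf_pd N C hC g h h1).psd, h2⟩

include hC in
theorem ks_locfin : ∀ h : (PM F n).V, (∀ e ∈ LatE g, cM N C g e ≤ qm e h) →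
    ∃ U ∈ nhds h, {e | e ∈ LatE g ∧ ∃ h' ∈ U, qm e h' ≤ cM N C g e}.Finite := by
  intro h hh
  obtain ⟨ε, U, hε, hU, hlow⟩ := (kyf_pd N C hC g h hh).lower
  refine ⟨U, hU, ?_⟩
  refine ((lat_disc g (9 / 8 / ε)).preimage (theta_inj F n).injOn).subset ?_
  rintro x ⟨hx, h', hh', hq⟩
  refine ⟨mem_LatI.2 ⟨_, hx.1, rfl⟩, ?_⟩
  rw [le_div_iff₀ hε, mul_comm]
  exact (hlow h' hh' _).trans (hq.trans (cM_lt hC g x).2.le)

include hN hC in
theorem ks_indep : ∀ h : (PM F n).V, (∀ e ∈ LatE g, cM N C g e ≤ qm e h) →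
    LinearIndependent ℝ (fun e : {e // e ∈ LatE g ∧ qm e h = cM N C g e} => qm e.1) := by
  intro h hh
  rw [linearIndependent_iff_finset_linearIndependent]
  intro s
  have hinj : Function.Injective (Subtype.val :
      {e : ME F n // e ∈ LatE g ∧ qm e h = cM N C g e} → ME F n) :=
    Subtype.val_injective
  have h1 := hC.2 (s.map ⟨Subtype.val, hinj⟩) (fun e => cls N g e) (by
    intro x hx y hy hxy
    simp only [Finset.coe_map, Function.Embedding.coeFn_mk, Set.mem_image, Finset.mem_coe] at hx hy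
    obtain ⟨x', _, rfl⟩ := hx
    obtain ⟨y', _, rfl⟩ := hy
    exact ks_inj N hN C hC g h hh x'.2.1 y'.2.1 x'.2.2 y'.2.2 hxy) h (by
    intro x hx
    simp only [Finset.mem_map, Function.Embedding.coeFn_mk] at hx
    obtain ⟨x', _, rfl⟩ := hx
    exact x'.2.2)
  let f : s → {x : ME F n // x ∈ s.map ⟨Subtype.val, hinj⟩} := fun x =>
    ⟨x.1.1, Finset.mem_map.2 ⟨x.1, x.2, rfl⟩⟩
  have hf : Function.Injective f := by
    intro a b hab
    apply Subtype.ext
    apply Subtype.ext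
    have h2 := Subtype.ext_iff.1 hab
    exact h2
  exact h1.comp f hf

include hC in
theorem ks_unb (hn : 0 < n) : ¬ Bornology.IsBounded
    {h : (PM F n).V | ∀ e ∈ LatE g, cM N C g e ≤ qm e h} := by
  intro hb
  obtain ⟨h, hpd, h2⟩ := ks_large g
  have hne : h ≠ 0 := by
    rintro rfl
    have h1 : theta F n 1 ≠ 0 := by
      apply theta_ne
      intro h0
      have h3 := congrFun (congrFun h0 ⟨0, hn⟩) ⟨0, hn⟩
      rw [Matrix.one_apply_eq, Matrix.zero_apply] at h3
      exact one_ne_zero h3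
    have := hpd _ h1
    rw [map_zero] at this
    exact lt_irrefl _ this
  obtain ⟨B, hB⟩ := hb.exists_norm_le
  have hpos : 0 < ‖h‖ := norm_pos_iff.2 hne
  obtain ⟨m, hm⟩ := exists_nat_gt (B / ‖h‖)
  have h3 : ((m : ℝ) + 1) • h ∈ {h : (PM F n).V | ∀ e ∈ LatE g, cM N C g e ≤ qm e h} := by
    intro e he
    have h4 := h2 e he
    have h5 := (cM_lt hC g e).2
    rw [map_smul, smul_eq_mul]
    have h6 : (0 : ℝ) ≤ m := Nat.cast_nonneg m
    nlinarith
  have h4 := hB _ h3
  rw [norm_smul, Real.norm_eq_abs, abs_of_nonneg (by positivity)] at h4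
  rw [div_lt_iff₀ hpos] at hm
  nlinarith

end fields

end Pool.Agent.KGn
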